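import Pool.Agent.Helper684.Ergo.M2p

/-!
For a smooth function `f`, `dd^c f` is a continuous real `(1,1)`-form.
-/

set_option autoImplicit false

open scoped Manifold
open Metric MeasureTheory Set Filter Topology
open Pool.Agent.Helper240.Nev Pool.Agent.Helper684.Ergo

namespace Pool.Agent.Helper529.Har

variable {E M : Type*} [NormedAddCommGroup E] [NormedSpace ℂ E] [TopologicalSpace M]
  [ChartedSpace E M]

/-- the real Hessian of `f` at `x` in the preferred chart -/
noncomputable def hess (f : M → ℝ) (x : M) : E →L[ℝ] E →L[ℝ] ℝ :=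
  fderiv ℝ (fderiv ℝ (fun y => f ((chartAt E x).symm y))) (chartAt E x x)

section

variable [IsManifold 𝓘(ℂ, E) 1 M]

theorem ddc_contDiffAt [FiniteDimensional ℂ E] {f : M → ℝ}
    (hf : ContMDiff 𝓘(ℝ, E) 𝓘(ℝ, ℝ) ((⊤ : ℕ∞) : WithTop ℕ∞) f) {e : OpenPartialHomeomorph M E}
    (he : e ∈ IsManifold.maximalAtlas 𝓘(ℂ, E) 1 M) {y : E} (hy : y ∈ e.target) :
    ContDiffAt ℝ 2 (fun y => f (e.symm y)) y :=
  (contDiffAt_comp_symm he hf hy).of_le (WithTop.coe_le_coe.2 (le_top : (2 : ℕ∞) ≤ ⊤))

theorem hess_symm [FiniteDimensional ℂ E] {f : M → ℝ}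
    (hf : ContMDiff 𝓘(ℝ, E) 𝓘(ℝ, ℝ) ((⊤ : ℕ∞) : WithTop ℕ∞) f) (x : M) (u v : E) :
    hess f x u v = hess f x v u := by
  have h := ddc_contDiffAt hf (IsManifold.chart_mem_maximalAtlas (I := 𝓘(ℂ, E)) (n := 1) x)
    (mem_chart_target E x)
  have h1 : IsSymmSndFDerivAt ℝ (fun y => f ((chartAt E x).symm y)) (chartAt E x x) :=
    h.isSymmSndFDerivAt (by simp)
  exact h1 u v

theorem ddcForm_eq_hess [FiniteDimensional ℂ E] {f : M → ℝ}
    (hf : ContMDiff 𝓘(ℝ, E) 𝓘(ℝ, ℝ) ((⊤ : ℕ∞) : WithTop ℕ∞) f) (x : M) (v : E) :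
    ddcForm (E := E) f x v = 1 / (2 * Real.pi) *
      (hess f x v v + hess f x (Complex.I • v) (Complex.I • v)) := by
  have h := ddc_contDiffAt hf (IsManifold.chart_mem_maximalAtlas (I := 𝓘(ℂ, E)) (n := 1) x)
    (mem_chart_target E x)
  have h2 := lapK2_line (v := v) h
  unfold ddcForm hess
  rw [← h2]

/-- the Hessian form in a chart -/
theorem ddcForm_chart [FiniteDimensional ℂ E] {f : M → ℝ}
    (hf : ContMDiff 𝓘(ℝ, E) 𝓘(ℝ, ℝ) ((⊤ : ℕ∞) : WithTop ℕ∞) f) {e : OpenPartialHomeomorph M E}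
    (he : e ∈ IsManifold.maximalAtlas 𝓘(ℂ, E) 1 M) {x : M} (hx : x ∈ e.source)
    (v : TangentSpace 𝓘(ℂ, E) x) :
    ddcForm (E := E) f x v = 1 / (2 * Real.pi) *
      (fderiv ℝ (fderiv ℝ (fun y => f (e.symm y))) (e x) (chartDeriv e x v) (chartDeriv e x v) +
        fderiv ℝ (fderiv ℝ (fun y => f (e.symm y))) (e x) (Complex.I • chartDeriv e x v)
          (Complex.I • chartDeriv e x v)) := by
  have : CompleteSpace E := FiniteDimensional.complete ℂ E
  set c := chartAt E x with hc
  have hcm : c ∈ IsManifold.maximalAtlas 𝓘(ℂ, E) 1 M := IsManifold.chart_mem_maximalAtlas _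
  have hxc : x ∈ c.source := mem_chart_source E x
  let w : E := v
  set ψ : ℂ → M := fun ζ => c.symm (c x + ζ • w) with hψ
  have hψ0 : ψ 0 = x := by
    show c.symm (c x + (0 : ℂ) • w) = x
    rw [zero_smul, add_zero, c.left_inv hxc]
  have hlin : ∀ z : ℂ, HasDerivAt (fun ζ : ℂ => c x + ζ • w) w z := by
    intro z
    have := ((hasDerivAt_id z).smul_const w).const_add (c x)
    simpa using this
  have hlc : Continuous fun ζ : ℂ => c x + ζ • w := by fun_prop
  have hev1 : ∀ᶠ z in 𝓝 (0 : ℂ), c x + z • w ∈ c.target := by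
    apply hlc.continuousAt.preimage_mem_nhds
    apply c.open_target.mem_nhds
    rw [zero_smul, add_zero]
    exact c.map_source hxc
  have hmd : ∀ z : ℂ, c x + z • w ∈ c.target → MDifferentiableAt 𝓘(ℂ, ℂ) 𝓘(ℂ, E) ψ z := by
    intro z hz
    have h1 : MDifferentiableAt 𝓘(ℂ, ℂ) 𝓘(ℂ, E) (fun ζ : ℂ => c x + ζ • w) z :=
      mdifferentiableAt_iff_differentiableAt.2 (hlin z).differentiableAt
    exact (chart_symm_mdiff hcm hz).comp z h1
  have h0t : c x + (0 : ℂ) • w ∈ c.target := hev1.self_of_nhds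
  have hψc : ContinuousAt ψ 0 := (hmd 0 h0t).continuousAt
  have hev2 : ∀ᶠ z in 𝓝 (0 : ℂ), ψ z ∈ e.source := by
    apply hψc.preimage_mem_nhds
    apply e.open_source.mem_nhds
    rw [hψ0]
    exact hx
  have hana : AnalyticAt ℂ (fun z => e (ψ z)) 0 := by
    rw [Complex.analyticAt_iff_eventually_differentiableAt]
    filter_upwards [hev1, hev2] with z hz1 hz2
    exact (hasDerivAt_chart (hmd z hz1) ⟨he, hz2⟩).differentiableAt
  have hd : (discDeriv (E := E) ψ 0 1 : E) = w := by
    have h1 := hasDerivAt_chart (hmd 0 h0t) (e := c) ⟨hcm, by rw [hψ0]; exact hxc⟩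
    have h2 : (fun z => c (ψ z)) =ᶠ[𝓝 0] fun z => c x + z • w := by
      filter_upwards [hev1] with z hz
      exact c.right_inv hz
    have h3 := (h1.congr_of_eventuallyEq h2.symm).unique (hlin 0)
    have h4 : ∀ (p : M) (hp : p = x) (u : E), chartDeriv (E := E) c p u = u := by
      intro p hp u
      subst hp
      exact chartDeriv_chartAt _ _
    rw [h4 _ hψ0] at h3
    exact h3
  have hde : deriv (fun z => e (ψ z)) 0 = chartDeriv e x v := by
    have h1 := (hasDerivAt_chart (hmd 0 h0t) (e := e) ⟨he, hev2.self_of_nhds⟩).deriv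
    rw [h1]
    have h4 : ∀ (p : M) (hp : p = x) (u : E), chartDeriv (E := E) e p u =
        chartDeriv (E := E) e x u := by
      intro p hp u
      subst hp
      rfl
    have h5 := h4 _ hψ0 (discDeriv (E := E) ψ 0 1)
    rw [hd] at h5
    have h6 : chartDeriv (E := E) e (ψ 0) (discDeriv (E := E) ψ 0 1) =
      chartDeriv (E := E) e (ψ 0) w := congrArg (chartDeriv (E := E) e (ψ 0)) hd
    rw [h6]
    exact h5
  have hg : ContDiffAt ℝ 2 (fun y => f (e.symm y)) (e (ψ 0)) := by
    rw [hψ0]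
    exact ddc_contDiffAt hf he (e.map_source hx)
  have hmain := lapK2_main hg hana
  rw [hde, hψ0] at hmain
  rw [← hmain]
  unfold ddcForm
  congr 1
  apply lap_congr_of_eventuallyEq
  filter_upwards [hev2] with z hz
  show f (ψ z) = f (e.symm (e (ψ z)))
  rw [e.left_inv hz]

theorem continuous_ddcForm [FiniteDimensional ℂ E] {f : M → ℝ}
    (hf : ContMDiff 𝓘(ℝ, E) 𝓘(ℝ, ℝ) ((⊤ : ℕ∞) : WithTop ℕ∞) f) :
    Continuous fun p : TangentBundle 𝓘(ℂ, E) M => ddcForm (E := E) f p.1 p.2 := by
  rw [continuous_iff_continuousAt]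
  intro p0
  set e := chartAt E p0.1 with he
  have hem : e ∈ IsManifold.maximalAtlas 𝓘(ℂ, E) 1 M := IsManifold.chart_mem_maximalAtlas _
  have hsrc : p0.1 ∈ e.source := mem_chart_source E p0.1
  have h1 : ContinuousOn (tangentMapWithin 𝓘(ℂ, E) 𝓘(ℂ, E) e e.source)
      (Bundle.TotalSpace.proj ⁻¹' e.source) :=
    (contMDiffOn_of_mem_maximalAtlas hem).continuousOn_tangentMapWithin le_rfl
      e.open_source.uniqueMDiffOn
  have hopen : IsOpen ((Bundle.TotalSpace.proj : TangentBundle 𝓘(ℂ, E) M → M) ⁻¹' e.source) :=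
    e.open_source.preimage (FiberBundle.continuous_proj E (TangentSpace 𝓘(ℂ, E)))
  have h2 : ContinuousAt (tangentMapWithin 𝓘(ℂ, E) 𝓘(ℂ, E) e e.source) p0 :=
    h1.continuousAt (hopen.mem_nhds hsrc)
  have h3 : ContinuousAt (fun p : TangentBundle 𝓘(ℂ, E) M =>
      (tangentBundleModelSpaceHomeomorph 𝓘(ℂ, E)
        (tangentMapWithin 𝓘(ℂ, E) 𝓘(ℂ, E) e e.source p) : E × E)) p0 :=
    (tangentBundleModelSpaceHomeomorph 𝓘(ℂ, E)).continuous.continuousAt.comp h2
  have h4 : (fun p : TangentBundle 𝓘(ℂ, E) M => ((e p.1, chartDeriv e p.1 p.2) : E × E))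
      =ᶠ[𝓝 p0] (fun p : TangentBundle 𝓘(ℂ, E) M =>
      (tangentBundleModelSpaceHomeomorph 𝓘(ℂ, E)
        (tangentMapWithin 𝓘(ℂ, E) 𝓘(ℂ, E) e e.source p) : E × E)) := by
    filter_upwards [hopen.mem_nhds hsrc] with p hp
    show ((e p.1, mfderiv 𝓘(ℂ, E) 𝓘(ℂ, E) e p.1 p.2) : E × E) =
      (e p.1, mfderivWithin 𝓘(ℂ, E) 𝓘(ℂ, E) e e.source p.1 p.2)
    rw [mfderivWithin_of_isOpen e.open_source hp]
    rfl
  have h5 : ContinuousAt (fun p : TangentBundle 𝓘(ℂ, E) M =>
      ((e p.1, chartDeriv e p.1 p.2) : E × E)) p0 := h3.congr h4.symm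
  have hg : ContDiffAt ℝ 2 (fun y => f (e.symm y)) (e p0.1) :=
    ddc_contDiffAt hf hem (e.map_source hsrc)
  have hD : ContinuousAt (fderiv ℝ (fderiv ℝ (fun y => f (e.symm y)))) (e p0.1) := by
    have h6 : ContDiffAt ℝ 1 (fderiv ℝ (fun y => f (e.symm y))) (e p0.1) :=
      hg.fderiv_right (by norm_num)
    have h7 : ContDiffAt ℝ 0 (fderiv ℝ (fderiv ℝ (fun y => f (e.symm y)))) (e p0.1) :=
      h6.fderiv_right (by norm_num)
    exact h7.continuousAt
  have h8 : ContinuousAt (fun p : TangentBundle 𝓘(ℂ, E) M => (e p.1 : E)) p0 :=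
    continuousAt_fst.comp h5
  have h9 : ContinuousAt (fun p : TangentBundle 𝓘(ℂ, E) M => (chartDeriv e p.1 p.2 : E)) p0 :=
    continuousAt_snd.comp h5
  have h10 : ContinuousAt (fun p : TangentBundle 𝓘(ℂ, E) M =>
      fderiv ℝ (fderiv ℝ (fun y => f (e.symm y))) (e p.1)) p0 :=
    ContinuousAt.comp (f := fun p : TangentBundle 𝓘(ℂ, E) M => (e p.1 : E)) hD h8
  have h11 : ContinuousAt (fun p : TangentBundle 𝓘(ℂ, E) M =>
      (Complex.I • chartDeriv e p.1 p.2 : E)) p0 := h9.const_smul Complex.I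
  have h12 : ContinuousAt (fun p : TangentBundle 𝓘(ℂ, E) M => 1 / (2 * Real.pi) *
      (fderiv ℝ (fderiv ℝ (fun y => f (e.symm y))) (e p.1) (chartDeriv e p.1 p.2)
          (chartDeriv e p.1 p.2) +
        fderiv ℝ (fderiv ℝ (fun y => f (e.symm y))) (e p.1) (Complex.I • chartDeriv e p.1 p.2)
          (Complex.I • chartDeriv e p.1 p.2))) p0 :=
    continuousAt_const.mul (((h10.clm_apply h9).clm_apply h9).add
      ((h10.clm_apply h11).clm_apply h11))
  refine h12.congr ?_
  filter_upwards [hopen.mem_nhds hsrc] with p hp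
  exact (ddcForm_chart hf hem hp p.2).symm

/-- For a smooth function `f` on a complex manifold, `dd^c f` is a continuous `(1,1)`-form. -/
theorem exists_ddc [FiniteDimensional ℂ E] {f : M → ℝ}
    (hf : ContMDiff 𝓘(ℝ, E) 𝓘(ℝ, ℝ) ((⊤ : ℕ∞) : WithTop ℕ∞) f) :
    ∃ θ : Form11 E M, ∀ (x : M) (v : TangentSpace 𝓘(ℂ, E) x),
      θ.form x v (J x v) = ddcForm f x v := by
  have hII : ∀ v : E, Complex.I • (Complex.I • v) = -v := by
    intro v
    rw [smul_smul, Complex.I_mul_I, neg_smul, one_smul]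
  have hkey : ∀ (x : M) (v : E), 1 / (2 * Real.pi) *
      (hess f x (Complex.I • v) (Complex.I • v) - hess f x v (Complex.I • (Complex.I • v))) =
        ddcForm (E := E) f x v := by
    intro x v
    rw [ddcForm_eq_hess hf, hII, map_neg]
    ring
  refine ⟨{ form := fun x u v => 1 / (2 * Real.pi) *
      (hess f x ((Complex.I • (show E from u) : E)) (show E from v) -
        hess f x (show E from u) ((Complex.I • (show E from v) : E)))
            isForm11At := fun x => ⟨?_, ?_, ?_, ?_⟩
            cont := ?_ }, fun x v => hkey x v⟩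
  · intro u v w
    show 1 / (2 * Real.pi) *
      (hess f x (Complex.I • ((show E from u) + (show E from v))) (show E from w) -
        hess f x ((show E from u) + (show E from v)) (Complex.I • (show E from w))) =
        1 / (2 * Real.pi) *
      (hess f x ((Complex.I • (show E from u) : E)) (show E from w) -
        hess f x (show E from u) ((Complex.I • (show E from w) : E))) + 1 / (2 * Real.pi) *
      (hess f x ((Complex.I • (show E from v) : E)) (show E from w) -
        hess f x (show E from v) ((Complex.I • (show E from w) : E)))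
    rw [smul_add, map_add, map_add, add_apply, add_apply]
    ring
  · intro a v w
    have e1 : ((a : ℂ) • (show E from v) : E) = a • (show E from v) := Complex.coe_smul a _
    show 1 / (2 * Real.pi) *
      (hess f x (Complex.I • ((a : ℂ) • (show E from v))) (show E from w) -
        hess f x ((a : ℂ) • (show E from v)) (Complex.I • (show E from w))) =
        a * (1 / (2 * Real.pi) *
      (hess f x ((Complex.I • (show E from v) : E)) (show E from w) -
        hess f x (show E from v) ((Complex.I • (show E from w) : E))))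
    have e2 : Complex.I • ((a : ℂ) • (show E from v)) = a • (Complex.I • (show E from v)) := by
      rw [e1, smul_comm]
    have h3 : ∀ p q : E, hess f x (a • p) q = a * hess f x p q := by
      intro p q
      rw [map_smul (hess f x) a p, smul_apply, smul_eq_mul]
    rw [e2, e1, h3, h3]
    ring
  · intro v w
    show 1 / (2 * Real.pi) *
      (hess f x ((Complex.I • (show E from w) : E)) (show E from v) -
        hess f x (show E from w) ((Complex.I • (show E from v) : E))) =
        -(1 / (2 * Real.pi) *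
      (hess f x ((Complex.I • (show E from v) : E)) (show E from w) -
        hess f x (show E from v) ((Complex.I • (show E from w) : E))))
    rw [hess_symm hf x (Complex.I • (show E from w)), hess_symm hf x (show E from w)]
    ring
  · intro v w
    show 1 / (2 * Real.pi) *
      (hess f x ((Complex.I • (Complex.I • (show E from v)) : E)) (Complex.I • (show E from w)) -
        hess f x (Complex.I • (show E from v)) ((Complex.I • (Complex.I • (show E from w)) : E))) =
        (1 / (2 * Real.pi) *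
      (hess f x ((Complex.I • (show E from v) : E)) (show E from w) -
        hess f x (show E from v) ((Complex.I • (show E from w) : E))))
    rw [hII, hII, map_neg, map_neg, neg_apply]
    ring
  · have h := continuous_ddcForm hf
    convert h using 2 with p
    exact hkey p.1 p.2

end

end Pool.Agent.Helper529.Har
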