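import Pool.Agent.Helper529.Wf.W11
import Pool.Agent.Helper684.Ergo.M2
import Pool.Agent.Helper684.Ergo.M3
import Pool.Agent.Helper684.Ergo.Cover
import Pool.Agent.Helper684.Ergo.Calc1
import Pool.Agent.Helper684.Ergo.Calc2
import Pool.Agent.Helper684.Ergo.Leaf
import Pool.Agent.Helper684.Ergo.Ker
import Pool.Agent.Helper684.Ergo.HypPot
import Pool.Agent.Helper684.Ergo.HypApprox

set_option autoImplicit false

open Set Metric Filter Topology MeasureTheory
open scoped Manifold ComplexConjugate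
open Pool.Agent.Helper240.Nev Pool.Agent.Helper684.Ergo

namespace Pool.Agent.Helper529.Har


variable {E M : Type*} [NormedAddCommGroup E] [NormedSpace ℂ E] [TopologicalSpace M]
  [ChartedSpace E M] [IsManifold 𝓘(ℂ, E) 1 M] [MeasurableSpace M]

/-- a measurable family of universal coverings -/
structure Fam (F : Foliation E M) (Φ : M → ℂ → M) : Prop where
  meas : Measurable (fun p : M × ℂ => Φ p.1 p.2)
  cont : ∀ x, ContinuousOn (Φ x) (ball 0 1)
  cov : ∀ x, IsHyperbolic F x → F.IsUniversalCovering (Φ x) ∧ Φ x 0 = x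

/-- `u` is `C²` along the hyperbolic leaves, with gradient and Laplacian bounded by `R`
(a function of the universal covering, the derivatives are computed at the base point) -/
def LeafBound (F : Foliation E M) (u : M → ℝ) (R : (ℂ → M) → ℝ) : Prop :=
  ∀ φ : ℂ → M, F.IsUniversalCovering φ → ContDiffOn ℝ 2 (fun z => u (φ z)) (ball 0 1) ∧
    |lap (fun z => u (φ z)) 0| ≤ R φ ∧ ‖fderiv ℝ (fun z => u (φ z)) 0‖ ^ 2 ≤ R φ

/-- the leafwise harmonicity of the measure, tested on functions with compact support in the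
regular part -/
def Test (F : Foliation E M) (ω : PosForm E M) (μ : Measure M) (Φ : M → ℂ → M) : Prop :=
  ∀ u : M → ℝ, Measurable u → (∃ B, ∀ x, |u x| ≤ B) →
    (∃ K, IsCompact K ∧ Disjoint K F.sing ∧ ∀ x, x ∉ K → u x = 0) →
    (∃ C, LeafBound F u (fun φ => C * pullback ω φ 0)) →
      ∫ x, lap (fun z => u (Φ x z)) 0 / pullback ω (Φ x) 0 ∂μ = 0

/-- the barrier function, as given by `exists_W` -/
structure Barrier (F : Foliation E M) (ω : PosForm E M) (W : M → ℝ) : Prop where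
  meas : Measurable W
  below : ∃ c, ∀ x, IsHyperbolic F x → c ≤ W x
  proper : ∀ n : ℝ, ∃ K, IsCompact K ∧ Disjoint K F.sing ∧ ∀ x, IsHyperbolic F x → W x ≤ n → x ∈ K
  lap : ∃ C, ∀ φ, F.IsUniversalCovering φ → ContDiffOn ℝ 2 (fun z => W (φ z)) (ball 0 1) ∧
    |Pool.Agent.Helper684.Ergo.lap (fun z => W (φ z)) 0 + 8| ≤ C * pullback ω φ 0
  grad : ∀ n : ℝ, ∃ C, ∀ φ, F.IsUniversalCovering φ → W (φ 0) ≤ n →
    ‖fderiv ℝ (fun z => W (φ z)) 0‖ ^ 2 ≤ C * pullback ω φ 0 ∧ 1 ≤ C * pullback ω φ 0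

end Pool.Agent.Helper529.Har
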