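import Pool.Agent.Helper529.Har.H1

set_option autoImplicit false

open Set Metric Filter Topology MeasureTheory
open scoped Manifold ComplexConjugate
open Pool.Agent.Helper240.Nev Pool.Agent.Helper684.Ergo

namespace Pool.Agent.Helper529.Har


variable {E M : Type*} [NormedAddCommGroup E] [NormedSpace ℂ E] [TopologicalSpace M]
  [ChartedSpace E M] [IsManifold 𝓘(ℂ, E) 1 M] [MeasurableSpace M]

variable {F : Foliation E M} {ω : PosForm E M} {μ : Measure M} {Φ : M → ℂ → M} {W : M → ℝ}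


section
variable [BorelSpace M]

omit [IsManifold 𝓘(ℂ, E) 1 M] [BorelSpace M] in
theorem meas_at (hΦ : Fam F Φ) {u : M → ℝ} (hu : Measurable u) (z : ℂ) :
    Measurable (fun x => u (Φ x z)) :=
  hu.comp (hΦ.meas.comp (measurable_id.prodMk measurable_const))

theorem aemeasurable_lap (hΦ : Fam F Φ) (hH : ∀ᵐ x ∂μ, IsHyperbolic F x) {u : M → ℝ}
    (hu : Measurable u) {R : (ℂ → M) → ℝ} (hR : LeafBound F u R) :
    AEMeasurable (fun x => lap (fun z => u (Φ x z)) 0) μ := by
  refine aemeasurable_of_tendsto_metrizable_ae (u := atTop)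
    (f := fun (k : ℕ) (x : M) => ((k : ℝ) + 2) ^ 2 * (u (Φ x (1 / ((k : ℂ) + 2))) +
      u (Φ x (-(1 / ((k : ℂ) + 2)))) + u (Φ x (Complex.I / ((k : ℂ) + 2))) +
      u (Φ x (-(Complex.I / ((k : ℂ) + 2)))) - 4 * u (Φ x 0))) ?_ ?_
  · intro k
    apply Measurable.aemeasurable
    apply Measurable.const_mul
    apply Measurable.sub
    · exact (((meas_at hΦ hu _).add (meas_at hΦ hu _)).add (meas_at hΦ hu _)).add
        (meas_at hΦ hu _)
    · exact (meas_at hΦ hu _).const_mul 4
  · filter_upwards [hH] with x hx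
    exact tendsto_lap (hR (Φ x) (hΦ.cov x hx).1).1

end

section
variable [BorelSpace M]

theorem aemeasurable_grad (hΦ : Fam F Φ) (hH : ∀ᵐ x ∂μ, IsHyperbolic F x) {u : M → ℝ}
    (hu : Measurable u) {R : (ℂ → M) → ℝ} (hR : LeafBound F u R) :
    AEMeasurable (fun x => fderiv ℝ (fun z => u (Φ x z)) 0) μ := by
  have hcl : Continuous (fun p : ℝ × ℝ => p.1 • Complex.reCLM + p.2 • Complex.imCLM) := by
    fun_prop
  refine aemeasurable_of_tendsto_metrizable_ae (u := atTop)
    (f := fun (k : ℕ) (x : M) => (fun p : ℝ × ℝ => p.1 • Complex.reCLM + p.2 • Complex.imCLM)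
      (((k : ℝ) + 2) * (u (Φ x (((k : ℝ) + 2)⁻¹ • (1 : ℂ))) - u (Φ x 0)),
        ((k : ℝ) + 2) * (u (Φ x (((k : ℝ) + 2)⁻¹ • Complex.I)) - u (Φ x 0)))) ?_ ?_
  · intro k
    apply Measurable.aemeasurable
    apply hcl.measurable.comp
    exact (((meas_at hΦ hu _).sub (meas_at hΦ hu _)).const_mul _).prodMk
      (((meas_at hΦ hu _).sub (meas_at hΦ hu _)).const_mul _)
  · filter_upwards [hH] with x hx
    have hU := (hR (Φ x) (hΦ.cov x hx).1).1
    have hd : DifferentiableAt ℝ (fun z => u (Φ x z)) 0 :=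
      (hU.contDiffAt (isOpen_ball.mem_nhds (mem_ball_self one_pos))).differentiableAt (by norm_num)
    have hc : Tendsto (fun k : ℕ => ‖((k : ℝ) + 2)‖) atTop atTop := by
      have h1 : Tendsto (fun k : ℕ => (k : ℝ) + 2) atTop atTop :=
        tendsto_atTop_add_const_right _ _ tendsto_natCast_atTop_atTop
      exact tendsto_norm_atTop_atTop.comp h1
    have l1 := hd.hasFDerivAt.lim (1 : ℂ) hc
    have l2 := hd.hasFDerivAt.lim Complex.I hc
    simp only [zero_add, smul_eq_mul] at l1 l2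
    have hlim := (hcl.tendsto (fderiv ℝ (fun z => u (Φ x z)) 0 1,
      fderiv ℝ (fun z => u (Φ x z)) 0 Complex.I)).comp (l1.prodMk_nhds l2)
    have he : (fun p : ℝ × ℝ => p.1 • Complex.reCLM + p.2 • Complex.imCLM)
        (fderiv ℝ (fun z => u (Φ x z)) 0 1, fderiv ℝ (fun z => u (Φ x z)) 0 Complex.I) =
        fderiv ℝ (fun z => u (Φ x z)) 0 := by
      ext v
      have hv : v = v.re • (1 : ℂ) + v.im • Complex.I := by
        apply Complex.ext <;> simp
      conv_rhs => rw [hv, map_add, map_smul, map_smul]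
      simp [mul_comm]
    exact Eq.subst (motive := fun y => Tendsto _ atTop (𝓝 y)) he hlim

end


end Pool.Agent.Helper529.Har
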