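import Pool.Agent.Helper529.Har.H3

set_option autoImplicit false

open Set Metric Filter Topology MeasureTheory
open scoped Manifold ComplexConjugate
open Pool.Agent.Helper240.Nev Pool.Agent.Helper684.Ergo

namespace Pool.Agent.Helper529.Har


variable {E M : Type*} [NormedAddCommGroup E] [NormedSpace ℂ E] [TopologicalSpace M]
  [ChartedSpace E M] [IsManifold 𝓘(ℂ, E) 1 M] [MeasurableSpace M]

variable {F : Foliation E M} {ω : PosForm E M} {μ : Measure M} {Φ : M → ℂ → M} {W : M → ℝ}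


theorem hl_lap_zero : lap (fun _ : ℂ => (0 : ℝ)) 0 = 0 := by
  simp [Pool.Agent.Helper684.Ergo.lap]

theorem hl_fderiv_le (U : ℂ → ℝ) {a : ℂ} (ha : ‖a‖ = 1) :
    (fderiv ℝ U 0 a) ^ 2 ≤ ‖fderiv ℝ U 0‖ ^ 2 := by
  have h : |fderiv ℝ U 0 a| ≤ ‖fderiv ℝ U 0‖ := by
    have := (fderiv ℝ U 0).le_opNorm a
    rw [ha, mul_one, Real.norm_eq_abs] at this
    exact this
  rw [← sq_abs]
  exact pow_le_pow_left₀ (abs_nonneg _) h 2

theorem hl_bound {χ : ℝ → ℝ} (hχ : ContDiff ℝ 2 χ) (c n : ℝ) : ∃ A : ℝ, 0 ≤ A ∧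
    ∀ s ∈ Icc c n, |χ s| ≤ A ∧ |deriv χ s| ≤ A ∧ |deriv (deriv χ) s| ≤ A := by
  have h1 : ContDiff ℝ 1 (deriv χ) := by
    have := (contDiff_succ_iff_deriv (n := 1) (f := χ) (𝕜 := ℝ)).1 (by
      have h2 : (1 + 1 : WithTop ℕ∞) = 2 := by norm_num
      rw [h2]; exact hχ)
    exact this.2.2
  have h2 : Continuous (deriv (deriv χ)) := h1.continuous_deriv le_rfl
  obtain ⟨A0, hA0⟩ := (isCompact_Icc (a := c) (b := n)).exists_bound_of_continuousOn
    hχ.continuous.continuousOn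
  obtain ⟨A1, hA1⟩ := (isCompact_Icc (a := c) (b := n)).exists_bound_of_continuousOn
    h1.continuous.continuousOn
  obtain ⟨A2, hA2⟩ := (isCompact_Icc (a := c) (b := n)).exists_bound_of_continuousOn
    h2.continuousOn
  refine ⟨|A0| + |A1| + |A2|, by positivity, fun s hs => ⟨?_, ?_, ?_⟩⟩
  · have := hA0 s hs
    rw [Real.norm_eq_abs] at this
    have := le_abs_self A0
    have := abs_nonneg A1
    have := abs_nonneg A2
    linarith
  · have := hA1 s hs
    rw [Real.norm_eq_abs] at this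
    have := le_abs_self A1
    have := abs_nonneg A0
    have := abs_nonneg A2
    linarith
  · have := hA2 s hs
    rw [Real.norm_eq_abs] at this
    have := le_abs_self A2
    have := abs_nonneg A1
    have := abs_nonneg A0
    linarith

theorem hl_at {U : ℂ → ℝ} (hU : ContDiffOn ℝ 2 U (ball 0 1)) : ContDiffAt ℝ 2 U 0 :=
  hU.contDiffAt (isOpen_ball.mem_nhds (mem_ball_self one_pos))

/-- leaf bounds for a function of one variable composed with the barrier -/
theorem leafBound_comp (hW : Barrier F ω W) {χ : ℝ → ℝ} (hχ : ContDiff ℝ 2 χ) {n : ℝ}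
    (hn : ∀ s, n ≤ s → χ s = 0) : ∃ C, LeafBound F (fun x => χ (W x))
      (fun φ => C * pullback ω φ 0) := by
  obtain ⟨c, hc⟩ := hW.below
  obtain ⟨C0, hC0⟩ := hW.lap
  obtain ⟨C1, hC1⟩ := hW.grad n
  obtain ⟨A, hA0, hA⟩ := hl_bound hχ c n
  refine ⟨A * (|C0| + 8 * |C1|) + 2 * A * |C1| + A ^ 2 * |C1|, ?_⟩
  intro φ hφ
  have hp := pullback_pos_cov (ω := ω) hφ
  set p := pullback ω φ 0 with hpdef
  obtain ⟨hcd, hl⟩ := hC0 φ hφ
  have hUat := hl_at hcd
  have hχat : ContDiffAt ℝ 2 χ (W (φ 0)) := hχ.contDiffAt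
  refine ⟨hχ.comp_contDiffOn hcd, ?_⟩
  have hC0' : C0 * p ≤ |C0| * p := mul_le_mul_of_nonneg_right (le_abs_self _) hp.le
  have hC1' : C1 * p ≤ |C1| * p := mul_le_mul_of_nonneg_right (le_abs_self _) hp.le
  have hAC0 : 0 ≤ A * (|C0| + 8 * |C1|) * p := by positivity
  have hAC1 : 0 ≤ 2 * A * |C1| * p := by positivity
  have hAC2 : 0 ≤ A ^ 2 * |C1| * p := by positivity
  rcases le_or_gt (W (φ 0)) n with hle | hgt
  · obtain ⟨hg1, hg2⟩ := hC1 φ hφ hle
    have hs : W (φ 0) ∈ Icc c n := ⟨hc _ ⟨φ, hφ, rfl⟩, hle⟩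
    obtain ⟨-, hA1, hA2⟩ := hA _ hs
    constructor
    · have h1 := lap_comp_real (U := fun z => W (φ z)) (w := 0) hχat hUat
      rw [h1]
      have h2 := hl_fderiv_le (fun z => W (φ z)) (a := 1) (by simp)
      have h3 := hl_fderiv_le (fun z => W (φ z)) (a := Complex.I) (by simp)
      have h4 : |lap (fun z => W (φ z)) 0| ≤ (|C0| + 8 * |C1|) * p := by
        have h5 := abs_le.1 hl
        rw [abs_le]
        constructor
        · linarith [h5.1]
        · linarith [h5.2]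
      have h6 : (fderiv ℝ (fun z => W (φ z)) 0 1) ^ 2 +
          (fderiv ℝ (fun z => W (φ z)) 0 Complex.I) ^ 2 ≤ 2 * (|C1| * p) := by linarith
      have h7 : 0 ≤ (fderiv ℝ (fun z => W (φ z)) 0 1) ^ 2 +
          (fderiv ℝ (fun z => W (φ z)) 0 Complex.I) ^ 2 := by positivity
      calc _ ≤ |deriv χ (W (φ 0)) * lap (fun z => W (φ z)) 0| +
            |deriv (deriv χ) (W (φ 0)) * ((fderiv ℝ (fun z => W (φ z)) 0 1) ^ 2 +
              (fderiv ℝ (fun z => W (φ z)) 0 Complex.I) ^ 2)| := abs_add_le _ _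
        _ ≤ A * ((|C0| + 8 * |C1|) * p) + A * (2 * (|C1| * p)) := by
            rw [abs_mul, abs_mul, abs_of_nonneg h7]
            gcongr
        _ ≤ _ := by nlinarith
    · have h1 : fderiv ℝ (fun z => χ (W (φ z))) 0 =
          deriv χ (W (φ 0)) • fderiv ℝ (fun z => W (φ z)) 0 := by
        have h2 : HasFDerivAt (fun z => W (φ z)) (fderiv ℝ (fun z => W (φ z)) 0) 0 :=
          (hUat.differentiableAt (by norm_num)).hasFDerivAt
        have h3 : HasDerivAt χ (deriv χ (W (φ 0))) (W (φ 0)) :=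
          (hχat.differentiableAt (by norm_num)).hasDerivAt
        exact (h3.comp_hasFDerivAt (0 : ℂ) h2).fderiv
      rw [h1, norm_smul, mul_pow, Real.norm_eq_abs]
      calc _ ≤ A ^ 2 * (|C1| * p) := by
            gcongr
            linarith
        _ ≤ _ := by linarith
  · have hev : (fun z => χ (W (φ z))) =ᶠ[𝓝 0] fun _ => 0 := by
      have := hUat.continuousAt.eventually (lt_mem_nhds hgt)
      filter_upwards [this] with z hz
      exact hn _ hz.le
    constructor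
    · rw [lap_congr hev, hl_lap_zero, abs_zero]
      linarith
    · rw [hev.fderiv_eq]
      simp only [fderiv_fun_const, Pi.zero_apply, norm_zero]
      linarith

/-- product with a cut-off function of the barrier -/
theorem leafBound_mul (hW : Barrier F ω W) {χ : ℝ → ℝ} (hχ : ContDiff ℝ 2 χ) {n : ℝ}
    (hn : ∀ s, n ≤ s → χ s = 0) {u : M → ℝ} {B : ℝ} (hB : ∀ x, |u x| ≤ B) {C : ℝ}
    (hu : LeafBound F u (fun φ => C * (1 + pullback ω φ 0))) :
    ∃ C', LeafBound F (fun x => χ (W x) * u x) (fun φ => C' * pullback ω φ 0) := by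
  obtain ⟨c, hc⟩ := hW.below
  obtain ⟨C0, hC0⟩ := hW.lap
  obtain ⟨C1, hC1⟩ := hW.grad n
  obtain ⟨A, hA0, hA⟩ := hl_bound hχ c n
  obtain ⟨Ca, hCa⟩ := leafBound_comp hW hχ hn
  refine ⟨A * (|C| * (|C1| + 1)) + |B| * |Ca| + 2 * (|Ca| + |C| * (|C1| + 1)) +
    2 * A ^ 2 * (|C| * (|C1| + 1)) + 2 * |B| ^ 2 * |Ca|, ?_⟩
  intro φ hφ
  have hp := pullback_pos_cov (ω := ω) hφ
  obtain ⟨hcdu, hlu, hgu⟩ := hu φ hφ
  obtain ⟨hcda, hla, hga⟩ := hCa φ hφ
  set p := pullback ω φ 0 with hpdef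
  obtain ⟨hcd, hl⟩ := hC0 φ hφ
  have hUat := hl_at hcd
  have huat := hl_at hcdu
  have haat := hl_at hcda
  refine ⟨hcda.mul hcdu, ?_⟩
  have hCa' : Ca * p ≤ |Ca| * p := mul_le_mul_of_nonneg_right (le_abs_self _) hp.le
  have hC1' : C1 * p ≤ |C1| * p := mul_le_mul_of_nonneg_right (le_abs_self _) hp.le
  have h10 : 0 ≤ A * (|C| * (|C1| + 1)) * p := by positivity
  have h11 : 0 ≤ |B| * |Ca| * p := by positivity
  have h12 : 0 ≤ 2 * (|Ca| + |C| * (|C1| + 1)) * p := by positivity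
  have h13 : 0 ≤ 2 * A ^ 2 * (|C| * (|C1| + 1)) * p := by positivity
  have h14 : 0 ≤ 2 * |B| ^ 2 * |Ca| * p := by positivity
  rcases le_or_gt (W (φ 0)) n with hle | hgt
  · obtain ⟨hg1, hg2⟩ := hC1 φ hφ hle
    have hs : W (φ 0) ∈ Icc c n := ⟨hc _ ⟨φ, hφ, rfl⟩, hle⟩
    obtain ⟨hA1, -, -⟩ := hA _ hs
    have hCb : C * (1 + p) ≤ |C| * (|C1| + 1) * p := by
      calc C * (1 + p) ≤ |C| * (1 + p) := mul_le_mul_of_nonneg_right (le_abs_self _) (by positivity)
        _ ≤ |C| * ((|C1| + 1) * p) := by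
            apply mul_le_mul_of_nonneg_left _ (abs_nonneg _)
            linarith
        _ = _ := by ring
    have hlu' : |lap (fun z => u (φ z)) 0| ≤ |C| * (|C1| + 1) * p := hlu.trans hCb
    have hgu' : ‖fderiv ℝ (fun z => u (φ z)) 0‖ ^ 2 ≤ |C| * (|C1| + 1) * p := hgu.trans hCb
    have hla' : |lap (fun z => χ (W (φ z))) 0| ≤ |Ca| * p := hla.trans hCa'
    have hga' : ‖fderiv ℝ (fun z => χ (W (φ z))) 0‖ ^ 2 ≤ |Ca| * p := hga.trans hCa'
    have hB' : |u (φ 0)| ≤ |B| := (hB _).trans (le_abs_self _)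
    constructor
    · have h1 := abs_lap_mul_sub haat huat
      have h2 : |χ (W (φ 0)) * lap (fun z => u (φ z)) 0 + u (φ 0) * lap (fun z => χ (W (φ z))) 0| ≤
          A * (|C| * (|C1| + 1) * p) + |B| * (|Ca| * p) := by
        refine (abs_add_le _ _).trans ?_
        rw [abs_mul, abs_mul]
        gcongr
      have h3 : 4 * (‖fderiv ℝ (fun z => χ (W (φ z))) 0‖ * ‖fderiv ℝ (fun z => u (φ z)) 0‖) ≤
          2 * (|Ca| * p + |C| * (|C1| + 1) * p) := by
        nlinarith [sq_nonneg (‖fderiv ℝ (fun z => χ (W (φ z))) 0‖ -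
          ‖fderiv ℝ (fun z => u (φ z)) 0‖)]
      have h4 : |lap (fun z => χ (W (φ z)) * u (φ z)) 0| ≤
          2 * (|Ca| * p + |C| * (|C1| + 1) * p) +
            (A * (|C| * (|C1| + 1) * p) + |B| * (|Ca| * p)) := by
        have h5 : lap (fun z => χ (W (φ z)) * u (φ z)) 0 =
          (lap (fun z => χ (W (φ z)) * u (φ z)) 0 -
            (χ (W (φ 0)) * lap (fun z => u (φ z)) 0 + u (φ 0) * lap (fun z => χ (W (φ z))) 0)) +
            (χ (W (φ 0)) * lap (fun z => u (φ z)) 0 + u (φ 0) * lap (fun z => χ (W (φ z))) 0) := by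
          ring
        rw [h5]
        exact (abs_add_le _ _).trans (add_le_add (h1.trans h3) h2)
      refine h4.trans ?_
      nlinarith
    · have h1 : fderiv ℝ (fun z => χ (W (φ z)) * u (φ z)) 0 =
          χ (W (φ 0)) • fderiv ℝ (fun z => u (φ z)) 0 +
            u (φ 0) • fderiv ℝ (fun z => χ (W (φ z))) 0 :=
        fderiv_fun_mul (haat.differentiableAt (by norm_num)) (huat.differentiableAt (by norm_num))
      rw [h1]
      have h2 : ‖χ (W (φ 0)) • fderiv ℝ (fun z => u (φ z)) 0 +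
            u (φ 0) • fderiv ℝ (fun z => χ (W (φ z))) 0‖ ≤
          A * ‖fderiv ℝ (fun z => u (φ z)) 0‖ + |B| * ‖fderiv ℝ (fun z => χ (W (φ z))) 0‖ := by
        refine (norm_add_le _ _).trans ?_
        rw [norm_smul, norm_smul, Real.norm_eq_abs, Real.norm_eq_abs]
        gcongr
      have h3 := pow_le_pow_left₀ (norm_nonneg _) h2 2
      refine h3.trans ?_
      have h4 : (A * ‖fderiv ℝ (fun z => u (φ z)) 0‖ +
          |B| * ‖fderiv ℝ (fun z => χ (W (φ z))) 0‖) ^ 2 ≤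
          2 * A ^ 2 * ‖fderiv ℝ (fun z => u (φ z)) 0‖ ^ 2 +
          2 * |B| ^ 2 * ‖fderiv ℝ (fun z => χ (W (φ z))) 0‖ ^ 2 := by
        nlinarith [sq_nonneg (A * ‖fderiv ℝ (fun z => u (φ z)) 0‖ -
          |B| * ‖fderiv ℝ (fun z => χ (W (φ z))) 0‖)]
      refine h4.trans ?_
      have h5 : 2 * A ^ 2 * ‖fderiv ℝ (fun z => u (φ z)) 0‖ ^ 2 ≤
          2 * A ^ 2 * (|C| * (|C1| + 1) * p) :=
        mul_le_mul_of_nonneg_left hgu' (by positivity)
      have h6 : 2 * |B| ^ 2 * ‖fderiv ℝ (fun z => χ (W (φ z))) 0‖ ^ 2 ≤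
          2 * |B| ^ 2 * (|Ca| * p) :=
        mul_le_mul_of_nonneg_left hga' (by positivity)
      nlinarith
  · have hev : (fun z => χ (W (φ z)) * u (φ z)) =ᶠ[𝓝 0] fun _ => 0 := by
      have := hUat.continuousAt.eventually (lt_mem_nhds hgt)
      filter_upwards [this] with z hz
      rw [hn _ hz.le, zero_mul]
    constructor
    · rw [lap_congr hev, hl_lap_zero, abs_zero]
      linarith
    · rw [hev.fderiv_eq]
      simp only [fderiv_fun_const, Pi.zero_apply, norm_zero]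
      linarith


end Pool.Agent.Helper529.Har
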