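import Pool.Agent.Helper529.Har.H4

set_option autoImplicit false

open Set Metric Filter Topology MeasureTheory
open scoped Manifold ComplexConjugate
open Pool.Agent.Helper240.Nev Pool.Agent.Helper684.Ergo

namespace Pool.Agent.Helper529.Har


variable {E M : Type*} [NormedAddCommGroup E] [NormedSpace ℂ E] [TopologicalSpace M]
  [ChartedSpace E M] [IsManifold 𝓘(ℂ, E) 1 M] [MeasurableSpace M]

variable {F : Foliation E M} {ω : PosForm E M} {μ : Measure M} {Φ : M → ℂ → M} {W : M → ℝ}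


theorem hasDerivAt_posPow (k : ℕ) (t : ℝ) :
    HasDerivAt (fun t : ℝ => (max t 0) ^ (k + 2)) (((k + 2 : ℕ) : ℝ) * (max t 0) ^ (k + 1)) t := by
  rcases lt_trichotomy t 0 with h | rfl | h
  · rw [max_eq_right h.le, zero_pow (Nat.succ_ne_zero k), mul_zero]
    refine (hasDerivAt_const t (0 : ℝ)).congr_of_eventuallyEq ?_
    filter_upwards [gt_mem_nhds h] with y hy
    rw [max_eq_right hy.le, zero_pow (Nat.succ_ne_zero _)]
  · rw [max_self, zero_pow (Nat.succ_ne_zero k), mul_zero]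
    have h1 : (fun t : ℝ => (max t 0) ^ (k + 2)) =O[𝓝 (0 : ℝ)] fun t => ‖t - 0‖ ^ (k + 2) := by
      refine Asymptotics.IsBigO.of_bound 1 (Eventually.of_forall fun t => ?_)
      rw [one_mul, norm_pow, norm_pow, norm_norm, sub_zero]
      refine pow_le_pow_left₀ (norm_nonneg _) ?_ _
      rw [Real.norm_eq_abs, Real.norm_eq_abs, abs_of_nonneg (le_max_right t 0)]
      exact max_le (le_abs_self t) (abs_nonneg t)
    have h2 : HasFDerivAt (fun t : ℝ => (max t 0) ^ (k + 2)) (0 : ℝ →L[ℝ] ℝ) 0 :=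
      h1.hasFDerivAt (by omega)
    have h3 := h2.hasDerivAt
    simpa using h3
  · have h1 : HasDerivAt (fun t : ℝ => t ^ (k + 2)) (((k + 2 : ℕ) : ℝ) * t ^ (k + 1)) t := by
      have := hasDerivAt_pow (k + 2) t
      simpa using this
    rw [max_eq_left h.le]
    refine h1.congr_of_eventuallyEq ?_
    filter_upwards [lt_mem_nhds h] with y hy
    rw [max_eq_left hy.le]

/-- the cut-off function -/
noncomputable def chiN (N : ℝ) (s : ℝ) : ℝ := -(max (N - s) 0) ^ 3

theorem chiN_hasDeriv (N s : ℝ) : HasDerivAt (chiN N) (3 * (max (N - s) 0) ^ 2) s := by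
  have h1 : HasDerivAt (fun s : ℝ => N - s) (-1) s := by
    simpa using (hasDerivAt_id s).const_sub N
  have h2 := ((hasDerivAt_posPow 1 (N - s)).comp s h1).neg
  have h3 : HasDerivAt (chiN N) _ s := h2
  exact h3.congr_deriv (by push_cast; ring)

theorem chiN_hasDeriv2 (N s : ℝ) :
    HasDerivAt (fun s => 3 * (max (N - s) 0) ^ 2) (-(6 * max (N - s) 0)) s := by
  have h1 : HasDerivAt (fun s : ℝ => N - s) (-1) s := by
    simpa using (hasDerivAt_id s).const_sub N
  have h2 := ((hasDerivAt_posPow 0 (N - s)).comp s h1).const_mul 3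
  have h3 : HasDerivAt (fun s => 3 * (max (N - s) 0) ^ 2) _ s := h2
  exact h3.congr_deriv (by push_cast; ring)

theorem chiN_deriv (N : ℝ) : deriv (chiN N) = fun s => 3 * (max (N - s) 0) ^ 2 :=
  funext fun s => (chiN_hasDeriv N s).deriv

theorem chiN_deriv2 (N : ℝ) : deriv (deriv (chiN N)) = fun s => -(6 * max (N - s) 0) := by
  rw [chiN_deriv]
  exact funext fun s => (chiN_hasDeriv2 N s).deriv

theorem chiN_contDiff (N : ℝ) : ContDiff ℝ 2 (chiN N) := by
  have h2 : (2 : WithTop ℕ∞) = 1 + 1 := by norm_num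
  rw [h2, contDiff_succ_iff_deriv]
  refine ⟨fun s => (chiN_hasDeriv N s).differentiableAt, by simp, ?_⟩
  rw [contDiff_one_iff_deriv]
  constructor
  · rw [chiN_deriv]
    exact fun s => (chiN_hasDeriv2 N s).differentiableAt
  · rw [chiN_deriv2]
    fun_prop

theorem chiN_zero (N s : ℝ) (h : N ≤ s) : chiN N s = 0 := by
  unfold chiN
  rw [max_eq_right (by linarith)]
  simp

theorem norm_sq_le_two (D : ℂ →L[ℝ] ℝ) : ‖D‖ ^ 2 ≤ (D 1) ^ 2 + (D Complex.I) ^ 2 := by
  have h0 : 0 ≤ (D 1) ^ 2 + (D Complex.I) ^ 2 := by positivity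
  have h1 : ‖D‖ ≤ Real.sqrt ((D 1) ^ 2 + (D Complex.I) ^ 2) := by
    refine D.opNorm_le_bound (Real.sqrt_nonneg _) fun z => ?_
    have hz : D z = z.re * D 1 + z.im * D Complex.I := by
      have : z = z.re • (1 : ℂ) + z.im • Complex.I := by
        simp [Complex.re_add_im]
      conv_lhs => rw [this]
      rw [map_add, map_smul, map_smul, smul_eq_mul, smul_eq_mul]
    rw [Real.norm_eq_abs]
    apply abs_le_of_sq_le_sq _ (by positivity)
    rw [mul_pow, Real.sq_sqrt h0, hz, ← Complex.normSq_eq_norm_sq, Complex.normSq_apply]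
    nlinarith [sq_nonneg (z.re * D Complex.I - z.im * D 1)]
  calc ‖D‖ ^ 2 ≤ (Real.sqrt ((D 1) ^ 2 + (D Complex.I) ^ 2)) ^ 2 :=
        pow_le_pow_left₀ (norm_nonneg _) h1 2
    _ = _ := Real.sq_sqrt h0

theorem hyp_of_cov {φ : ℂ → M} (hφ : F.IsUniversalCovering φ) {z : ℂ} (hz : z ∈ ball (0 : ℂ) 1) :
    IsHyperbolic F (φ z) :=
  ⟨fun w => φ (mob z w), universalCovering_mob hφ hz, by simp [mob]⟩

/-- the main estimate -/
theorem main_est [BorelSpace M] [FiniteDimensional ℂ E] [T2Space M] [CompactSpace M]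
    [IsFiniteMeasure μ] (hΦ : Fam F Φ) (hH : ∀ᵐ x ∂μ, IsHyperbolic F x)
    (hT : Test F ω μ Φ) (hW : Barrier F ω W) {c : ℝ} (hc : ∀ x, IsHyperbolic F x → c ≤ W x)
    {C0 : ℝ} (hC0 : 0 ≤ C0) (hL : ∀ φ, F.IsUniversalCovering φ →
      ContDiffOn ℝ 2 (fun z => W (φ z)) (ball 0 1) ∧
      |lap (fun z => W (φ z)) 0 + 8| ≤ C0 * pullback ω φ 0) (N : ℝ) (hN : c ≤ N) :
    ∫⁻ x, ENNReal.ofReal ((24 * (max (N - W x) 0) ^ 2 + 6 * max (N - W x) 0 *
      ‖fderiv ℝ (fun z => W (Φ x z)) 0‖ ^ 2) / pullback ω (Φ x) 0) ∂μ ≤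
      ENNReal.ofReal (3 * C0 * (N - c) ^ 2 * μ.real Set.univ) := by
  classical
  obtain ⟨K, hK, hKs, hKW⟩ := hW.proper N
  obtain ⟨u, hu⟩ : ∃ u : M → ℝ, u = K.indicator (fun x => chiN N (max (W x) c)) := ⟨_, rfl⟩
  have hum : Measurable u := by
    rw [hu]
    exact (((chiN_contDiff N).continuous.measurable).comp
      (hW.meas.max measurable_const)).indicator hK.measurableSet
  have hub : ∃ B, ∀ x, |u x| ≤ B := by
    refine ⟨(N - c) ^ 3, fun x => ?_⟩
    rw [hu]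
    have hnc : 0 ≤ N - c := by linarith
    by_cases hx : x ∈ K
    · rw [Set.indicator_of_mem hx]
      unfold chiN
      rw [abs_neg, abs_pow, abs_of_nonneg (le_max_right _ _)]
      refine pow_le_pow_left₀ (le_max_right _ _) ?_ _
      exact max_le (by linarith [le_max_right (W x) c]) hnc
    · rw [Set.indicator_of_notMem hx, abs_zero]
      positivity
  have hus : ∃ K, IsCompact K ∧ Disjoint K F.sing ∧ ∀ x, x ∉ K → u x = 0 := by
    refine ⟨K, hK, hKs, fun x hx => ?_⟩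
    rw [hu, Set.indicator_of_notMem hx]
  have heq : ∀ φ, F.IsUniversalCovering φ → ∀ z ∈ ball (0 : ℂ) 1, u (φ z) = chiN N (W (φ z)) := by
    intro φ hφ z hz
    have hyp := hyp_of_cov hφ hz
    rw [hu]
    by_cases hx : φ z ∈ K
    · rw [Set.indicator_of_mem hx, max_eq_left (hc _ hyp)]
    · rw [Set.indicator_of_notMem hx]
      have : N < W (φ z) := by
        by_contra hcon
        exact hx (hKW _ hyp (not_lt.1 hcon))
      rw [chiN_zero N _ this.le]
  have hev : ∀ φ, F.IsUniversalCovering φ →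
      (fun z => u (φ z)) =ᶠ[𝓝 (0 : ℂ)] fun z => chiN N (W (φ z)) := by
    intro φ hφ
    filter_upwards [ball_mem_nhds (0 : ℂ) one_pos] with z hz
    exact heq φ hφ z hz
  obtain ⟨C, hC⟩ := leafBound_comp hW (chiN_contDiff N) (n := N) (chiN_zero N)
  have hLB : LeafBound F u (fun φ => C * pullback ω φ 0) := by
    intro φ hφ
    obtain ⟨h1, h2, h3⟩ := hC φ hφ
    refine ⟨h1.congr fun z hz => heq φ hφ z hz, ?_, ?_⟩
    · rw [lap_congr (hev φ hφ)]
      exact h2
    · rw [(hev φ hφ).fderiv_eq]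
      exact h3
  have hint := hT u hum hub hus ⟨C, hLB⟩
  obtain ⟨g, hg⟩ : ∃ g : M → ℝ, g = fun x => lap (fun z => u (Φ x z)) 0 / pullback ω (Φ x) 0 :=
    ⟨_, rfl⟩
  have hgi : Integrable g μ := by
    have hm : AEStronglyMeasurable g μ := by
      rw [hg]
      exact ((aemeasurable_lap hΦ hH hum hLB).div
        (aemeasurable_pullback (ω := ω) hΦ hH)).aestronglyMeasurable
    refine Integrable.of_bound hm C ?_
    filter_upwards [hH] with x hx
    obtain ⟨hcov, h0⟩ := hΦ.cov x hx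
    have hP : 0 < pullback ω (Φ x) 0 := pullback_pos_cov hcov
    rw [hg]
    simp only
    rw [norm_div, Real.norm_eq_abs, Real.norm_eq_abs, abs_of_pos hP, div_le_iff₀ hP]
    exact (hLB _ hcov).2.1
  have hint' : ∫ x, g x ∂μ = 0 := by
    rw [hg]
    exact hint
  obtain ⟨q, hq⟩ : ∃ q : M → ℝ, q = fun x => 3 * C0 * (max (N - W x) 0) ^ 2 := ⟨_, rfl⟩
  have hqb : ∀ᵐ x ∂μ, q x ≤ 3 * C0 * (N - c) ^ 2 := by
    filter_upwards [hH] with x hx
    rw [hq]
    simp only
    have h1 : max (N - W x) 0 ≤ N - c := max_le (by linarith [hc x hx]) (by linarith)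
    have h2 : 0 ≤ max (N - W x) 0 := le_max_right _ _
    gcongr
  have hq0 : ∀ x, 0 ≤ q x := by
    intro x
    rw [hq]
    positivity
  have hqi : Integrable q μ := by
    have hm : Measurable q := by
      rw [hq]
      exact (((measurable_const.sub hW.meas).max measurable_const).pow_const 2).const_mul _
    refine Integrable.of_bound hm.aestronglyMeasurable (3 * C0 * (N - c) ^ 2) ?_
    filter_upwards [hqb] with x hx
    rw [Real.norm_eq_abs, abs_of_nonneg (hq0 x)]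
    exact hx
  have hpt : ∀ᵐ x ∂μ, (24 * (max (N - W x) 0) ^ 2 + 6 * max (N - W x) 0 *
      ‖fderiv ℝ (fun z => W (Φ x z)) 0‖ ^ 2) / pullback ω (Φ x) 0 ≤ q x - g x := by
    filter_upwards [hH] with x hx
    obtain ⟨hcov, h0⟩ := hΦ.cov x hx
    have hP : 0 < pullback ω (Φ x) 0 := pullback_pos_cov hcov
    obtain ⟨hcd, hlap⟩ := hL _ hcov
    have hU : ContDiffAt ℝ 2 (fun z => W (Φ x z)) 0 :=
      hcd.contDiffAt (ball_mem_nhds (0 : ℂ) one_pos)
    have e1 : lap (fun z => u (Φ x z)) 0 = 3 * (max (N - W x) 0) ^ 2 * lap (fun z => W (Φ x z)) 0 +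
        -(6 * max (N - W x) 0) * ((fderiv ℝ (fun z => W (Φ x z)) 0 1) ^ 2 +
          (fderiv ℝ (fun z => W (Φ x z)) 0 Complex.I) ^ 2) := by
      rw [lap_congr (hev _ hcov)]
      rw [lap_comp_real (χ := chiN N) (U := fun z => W (Φ x z)) (chiN_contDiff N).contDiffAt hU]
      rw [chiN_deriv2, chiN_deriv, h0]
    have e2 := norm_sq_le_two (fderiv ℝ (fun z => W (Φ x z)) 0)
    have hp : 0 ≤ max (N - W x) 0 := le_max_right _ _
    rw [hq, hg]
    simp only
    rw [e1, div_le_iff₀ hP, sub_mul, div_mul_cancel₀ _ hP.ne']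
    have e3 := (abs_le.1 hlap).2
    have e4 : 0 ≤ (max (N - W x) 0) ^ 2 := by positivity
    nlinarith [mul_le_mul_of_nonneg_left e3 e4, mul_le_mul_of_nonneg_left e2 hp]
  have hnn : ∀ᵐ x ∂μ, 0 ≤ q x - g x := by
    filter_upwards [hpt, hH] with x hx hx'
    obtain ⟨hcov, h0⟩ := hΦ.cov x hx'
    have hP : 0 < pullback ω (Φ x) 0 := pullback_pos_cov hcov
    refine le_trans ?_ hx
    have hp : 0 ≤ max (N - W x) 0 := le_max_right _ _
    positivity
  calc ∫⁻ x, ENNReal.ofReal ((24 * (max (N - W x) 0) ^ 2 + 6 * max (N - W x) 0 *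
      ‖fderiv ℝ (fun z => W (Φ x z)) 0‖ ^ 2) / pullback ω (Φ x) 0) ∂μ
      ≤ ∫⁻ x, ENNReal.ofReal (q x - g x) ∂μ := by
        refine lintegral_mono_ae ?_
        filter_upwards [hpt] with x hx
        exact ENNReal.ofReal_le_ofReal hx
    _ = ENNReal.ofReal (∫ x, (q x - g x) ∂μ) :=
        (ofReal_integral_eq_lintegral_ofReal (hqi.sub hgi) hnn).symm
    _ ≤ ENNReal.ofReal (3 * C0 * (N - c) ^ 2 * μ.real Set.univ) := by
        apply ENNReal.ofReal_le_ofReal
        rw [integral_sub hqi hgi, hint', sub_zero]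
        calc ∫ x, q x ∂μ ≤ ∫ _x, 3 * C0 * (N - c) ^ 2 ∂μ :=
              integral_mono_ae hqi (integrable_const _) hqb
          _ = _ := by rw [integral_const, smul_eq_mul, mul_comm]


/-- **The Poincare mass is finite**, and the gradient of the barrier is controlled. -/
theorem finite_mass [BorelSpace M] [FiniteDimensional ℂ E] [T2Space M] [CompactSpace M]
    [IsFiniteMeasure μ] (hΦ : Fam F Φ) (hH : ∀ᵐ x ∂μ, IsHyperbolic F x)
    (hT : Test F ω μ Φ) (hW : Barrier F ω W) :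
    ∫⁻ x, ENNReal.ofReal (1 / pullback ω (Φ x) 0) ∂μ < ⊤ ∧
      ∃ C : ℝ, ∀ n : ℝ, 1 ≤ n → ∫⁻ x in {x | W x ≤ n},
        ENNReal.ofReal (‖fderiv ℝ (fun z => W (Φ x z)) 0‖ ^ 2 / pullback ω (Φ x) 0) ∂μ ≤
          ENNReal.ofReal (C * n) := by
  obtain ⟨c1, hc1⟩ := hW.below
  obtain ⟨C1, hC1⟩ := hW.lap
  obtain ⟨c, hcdef⟩ : ∃ c : ℝ, c = min c1 0 := ⟨_, rfl⟩
  obtain ⟨C0, hC0def⟩ : ∃ C0 : ℝ, C0 = |C1| := ⟨_, rfl⟩
  have hc0 : c ≤ 0 := by rw [hcdef]; exact min_le_right _ _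
  have hC0 : 0 ≤ C0 := by rw [hC0def]; exact abs_nonneg _
  have hc : ∀ x, IsHyperbolic F x → c ≤ W x := fun x hx => by
    rw [hcdef]
    exact (min_le_left _ _).trans (hc1 x hx)
  have hL : ∀ φ, F.IsUniversalCovering φ →
      ContDiffOn ℝ 2 (fun z => W (φ z)) (ball 0 1) ∧
      |lap (fun z => W (φ z)) 0 + 8| ≤ C0 * pullback ω φ 0 := by
    intro φ hφ
    obtain ⟨h1, h2⟩ := hC1 φ hφ
    refine ⟨h1, h2.trans ?_⟩
    rw [hC0def]
    exact mul_le_mul_of_nonneg_right (le_abs_self C1) (pullback_pos_cov hφ).le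
  obtain ⟨m, hm⟩ : ∃ m : ℝ, m = μ.real Set.univ := ⟨_, rfl⟩
  have hm0 : 0 ≤ m := by rw [hm]; exact measureReal_nonneg
  obtain ⟨H, hHdef⟩ : ∃ H : ℝ → M → ℝ, H = fun N x => (24 * (max (N - W x) 0) ^ 2 +
      6 * max (N - W x) 0 * ‖fderiv ℝ (fun z => W (Φ x z)) 0‖ ^ 2) / pullback ω (Φ x) 0 := ⟨_, rfl⟩
  have hmain : ∀ n : ℝ, 1 ≤ n → ∫⁻ x, ENNReal.ofReal (H (2 * n) x) ∂μ ≤
      ENNReal.ofReal (3 * C0 * (2 * n - c) ^ 2 * m) := by
    intro n hn
    rw [hHdef, hm]
    exact main_est hΦ hH hT hW hc hC0 hL (2 * n) (by linarith)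
  -- comparison on the sublevel sets
  have hset : ∀ n : ℝ, MeasurableSet {x | W x ≤ n} := fun n =>
    measurableSet_le hW.meas measurable_const
  have hcmp : ∀ (n : ℝ), 1 ≤ n → ∀ (a : ℝ), 0 ≤ a → ∀ h : M → ℝ,
      (∀ x, IsHyperbolic F x → W x ≤ n → h x ≤ a * H (2 * n) x) →
      ∫⁻ x in {x | W x ≤ n}, ENNReal.ofReal (h x) ∂μ ≤
        ENNReal.ofReal (a * (3 * C0 * (2 * n - c) ^ 2 * m)) := by
    intro n hn a ha h hh
    calc ∫⁻ x in {x | W x ≤ n}, ENNReal.ofReal (h x) ∂μ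
        ≤ ∫⁻ x in {x | W x ≤ n}, ENNReal.ofReal a * ENNReal.ofReal (H (2 * n) x) ∂μ := by
          refine setLIntegral_mono_ae' (hset n) ?_
          filter_upwards [hH] with x hx hxn
          rw [← ENNReal.ofReal_mul ha]
          exact ENNReal.ofReal_le_ofReal (hh x hx hxn)
      _ ≤ ∫⁻ x, ENNReal.ofReal a * ENNReal.ofReal (H (2 * n) x) ∂μ := setLIntegral_le_lintegral _ _
      _ = ENNReal.ofReal a * ∫⁻ x, ENNReal.ofReal (H (2 * n) x) ∂μ :=
          lintegral_const_mul' _ _ ENNReal.ofReal_ne_top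
      _ ≤ ENNReal.ofReal a * ENNReal.ofReal (3 * C0 * (2 * n - c) ^ 2 * m) := by
          gcongr
          exact hmain n hn
      _ = _ := (ENNReal.ofReal_mul ha).symm
  have hsq : ∀ n : ℝ, 1 ≤ n → (2 * n - c) ^ 2 ≤ (2 - c) ^ 2 * n ^ 2 := by
    intro n hn
    rw [← mul_pow]
    apply pow_le_pow_left₀ (by linarith)
    nlinarith
  constructor
  · -- first claim
    have hb : ∀ k : ℕ, ∫⁻ x in {x | W x ≤ (k : ℝ) + 1},
        ENNReal.ofReal (1 / pullback ω (Φ x) 0) ∂μ ≤ ENNReal.ofReal (3 * C0 * (2 - c) ^ 2 * m) := by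
      intro k
      obtain ⟨n, hn⟩ : ∃ n : ℝ, n = (k : ℝ) + 1 := ⟨_, rfl⟩
      have hn1 : 1 ≤ n := by rw [hn]; linarith [Nat.cast_nonneg (α := ℝ) k]
      rw [← hn]
      refine (hcmp n hn1 (1 / n ^ 2) (by positivity) _ ?_).trans ?_
      · intro x hx hxn
        obtain ⟨hcov, h0⟩ := hΦ.cov x hx
        have hP : 0 < pullback ω (Φ x) 0 := pullback_pos_cov hcov
        rw [hHdef]
        simp only
        rw [← mul_div_assoc]
        apply div_le_div_of_nonneg_right _ hP.le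
        have h1 : n ≤ max (2 * n - W x) 0 := le_max_of_le_left (by linarith)
        rw [one_div_mul_eq_div, le_div_iff₀ (by positivity)]
        have h2 : n ^ 2 ≤ (max (2 * n - W x) 0) ^ 2 := pow_le_pow_left₀ (by linarith) h1 2
        have h3 : 0 ≤ 6 * max (2 * n - W x) 0 * ‖fderiv ℝ (fun z => W (Φ x z)) 0‖ ^ 2 := by
          have : 0 ≤ max (2 * n - W x) 0 := le_max_right _ _
          positivity
        nlinarith
      · apply ENNReal.ofReal_le_ofReal
        rw [one_div_mul_eq_div, div_le_iff₀ (by positivity)]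
        have h1 := hsq n hn1
        have h2 : 0 ≤ 3 * C0 * m := by positivity
        nlinarith [mul_le_mul_of_nonneg_left h1 h2]
    have hU : (⋃ k : ℕ, {x | W x ≤ (k : ℝ) + 1}) = Set.univ := by
      apply Set.eq_univ_of_forall
      intro x
      obtain ⟨k, hk⟩ := exists_nat_ge (W x)
      exact Set.mem_iUnion.2 ⟨k, show W x ≤ (k : ℝ) + 1 by linarith⟩
    have hdir : Directed (· ⊆ ·) (fun k : ℕ => {x | W x ≤ (k : ℝ) + 1}) := by
      apply Monotone.directed_le
      intro k l hkl x hx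
      have h1 : (k : ℝ) ≤ l := by exact_mod_cast hkl
      have h2 : W x ≤ (k : ℝ) + 1 := hx
      show W x ≤ (l : ℝ) + 1
      linarith
    have h := setLIntegral_iUnion_of_directed (μ := μ)
      (fun x => ENNReal.ofReal (1 / pullback ω (Φ x) 0)) hdir
    rw [hU, Measure.restrict_univ] at h
    rw [h]
    exact lt_of_le_of_lt (iSup_le hb) ENNReal.ofReal_lt_top
  · refine ⟨C0 * (2 - c) ^ 2 * m, fun n hn => ?_⟩
    refine (hcmp n hn (1 / (6 * n)) (by positivity) _ ?_).trans ?_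
    · intro x hx hxn
      obtain ⟨hcov, h0⟩ := hΦ.cov x hx
      have hP : 0 < pullback ω (Φ x) 0 := pullback_pos_cov hcov
      rw [hHdef]
      simp only
      rw [← mul_div_assoc]
      apply div_le_div_of_nonneg_right _ hP.le
      have h1 : n ≤ max (2 * n - W x) 0 := le_max_of_le_left (by linarith)
      rw [one_div_mul_eq_div, le_div_iff₀ (by positivity)]
      have h2 : 0 ≤ ‖fderiv ℝ (fun z => W (Φ x z)) 0‖ ^ 2 := by positivity
      have h3 : 0 ≤ (max (2 * n - W x) 0) ^ 2 := by positivity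
      nlinarith [mul_le_mul_of_nonneg_right h1 h2]
    · apply ENNReal.ofReal_le_ofReal
      rw [one_div_mul_eq_div, div_le_iff₀ (by positivity)]
      have h1 := hsq n hn
      have h2 : 0 ≤ 3 * C0 * m := by positivity
      have h3 : 0 ≤ C0 * (2 - c) ^ 2 * m * n ^ 2 := by positivity
      nlinarith [mul_le_mul_of_nonneg_left h1 h2]


end Pool.Agent.Helper529.Har
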