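import Pool.Agent.Helper529.Har.I5

set_option autoImplicit false

open Set Metric Filter Topology MeasureTheory
open scoped Manifold ComplexConjugate ENNReal
open ProbabilityTheory
open Pool.Agent.Helper240.Nev Pool.Agent.Helper684.Ergo

namespace Pool.Agent.Helper529.Har


variable {E M : Type*} [NormedAddCommGroup E] [NormedSpace ℂ E] [TopologicalSpace M]
  [ChartedSpace E M] [IsManifold 𝓘(ℂ, E) 1 M] [MeasurableSpace M]

variable {F : Foliation E M} {ω : PosForm E M} {μ : Measure M} {Φ : M → ℂ → M} {W : M → ℝ}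


/-- **Invariance** of the Poincare measure. -/
theorem invariance [BorelSpace M] [FiniteDimensional ℂ E] [T2Space M] [CompactSpace M]
    [IsFiniteMeasure μ] (hΦ : Fam F Φ) (hH : ∀ᵐ x ∂μ, IsHyperbolic F x)
    (hT : Test F ω μ Φ) (hW : Barrier F ω W) {den : M → ℝ} (hd : Measurable den)
    (hden : ∀ φ : ℂ → M, F.IsUniversalCovering φ → den (φ 0) = pullback ω φ 0) :
    (poin μ den).bind (kerOf Φ hΦ.meas (fun u => ENNReal.ofReal (u ^ 2 / Real.pi))) =
      poin μ den := by
  have hk : Measurable (fun u : ℝ => ENNReal.ofReal (u ^ 2 / Real.pi)) := by fun_prop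
  haveI hfin := poin_finite hΦ hH hT hW hd hden
  haveI : ProperSpace E := FiniteDimensional.proper ℂ E
  haveI : SecondCountableTopology M := ChartedSpace.secondCountable_of_sigmaCompact E M
  letI : MetricSpace M := TopologicalSpace.metrizableSpaceMetric M
  obtain ⟨hI1, hI2⟩ := integral_hh_pow 2 le_rfl
  have hpt : ∀ f : M → ℝ, Continuous f → (∀ x, 0 ≤ f x) → ∀ B, (∀ x, |f x| ≤ B) → ∀ x,
      ∫⁻ y, ENNReal.ofReal (f y)
        ∂(kerOf Φ hΦ.meas (fun u => ENNReal.ofReal (u ^ 2 / Real.pi)) x) =
        ENNReal.ofReal (Qs Φ 2 f x) ∧ 0 ≤ Qs Φ 2 f x := by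
    intro f hf hf0 B hB x
    have hmeasx : Measurable (Φ x) := hΦ.meas.comp measurable_prodMk_left
    have hint : Integrable (fun w => hh 0 w ^ 2 * f (Φ x w)) hypVol := by
      refine hI2.mul_bdd (c := B) (hf.measurable.comp hmeasx).aestronglyMeasurable ?_
      exact Eventually.of_forall fun w => by rw [Real.norm_eq_abs]; exact hB _
    have hnn : ∀ w, 0 ≤ hh 0 w ^ 2 * f (Φ x w) := fun w => mul_nonneg (sq_nonneg _) (hf0 _)
    have hQ : Qs Φ 2 f x = ∫ w, (1 / Real.pi) * (hh 0 w ^ 2 * f (Φ x w)) ∂hypVol := by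
      rw [MeasureTheory.integral_const_mul]
      unfold Qs
      norm_num
    refine ⟨?_, ?_⟩
    · rw [lintegral_kerOf hΦ.meas hk hf.measurable.ennreal_ofReal x, hQ,
        ofReal_integral_eq_lintegral_ofReal (hint.const_mul _)
          (Eventually.of_forall fun w => mul_nonneg (by positivity) (hnn w))]
      refine lintegral_congr fun w => ?_
      rw [← ENNReal.ofReal_mul (by positivity)]
      congr 1
      ring
    · rw [hQ]
      exact integral_nonneg fun w => mul_nonneg (by positivity) (hnn w)
  have key : ∀ f : M → ℝ, Continuous f → (∀ x, 0 ≤ f x) → ∀ B, (∀ x, |f x| ≤ B) →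
      ∫⁻ x, ENNReal.ofReal (f x) ∂((poin μ den).bind
        (kerOf Φ hΦ.meas (fun u => ENNReal.ofReal (u ^ 2 / Real.pi)))) =
      ∫⁻ x, ENNReal.ofReal (f x) ∂(poin μ den) := by
    intro f hf hf0 B hB
    have hQi : Integrable (Qs Φ 2 f) (poin μ den) :=
      Integrable.of_bound (measurable_Qs hΦ 2 hf.measurable).aestronglyMeasurable B
        (Eventually.of_forall fun x => by
          rw [Real.norm_eq_abs]; exact abs_Qs_le Φ le_rfl hB x)
    have hfi : Integrable f (poin μ den) :=
      Integrable.of_bound hf.measurable.aestronglyMeasurable B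
        (Eventually.of_forall fun x => by
          rw [Real.norm_eq_abs]; exact hB x)
    rw [Measure.lintegral_bind (Kernel.measurable _).aemeasurable
      hf.measurable.ennreal_ofReal.aemeasurable,
      lintegral_congr (fun x => (hpt f hf hf0 B hB x).1),
      ← ofReal_integral_eq_lintegral_ofReal hQi
        (Eventually.of_forall fun x => (hpt f hf hf0 B hB x).2),
      ← ofReal_integral_eq_lintegral_ofReal hfi (Eventually.of_forall hf0),
      integral_Qs hΦ hH hT hW hd hden hf]
  symm
  refine ext_of_forall_lintegral_eq_of_IsFiniteMeasure fun f => ?_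
  have hc : Continuous fun x => ((f x : NNReal) : ℝ) := NNReal.continuous_coe.comp f.continuous
  obtain ⟨B, hB⟩ := isCompact_univ.exists_bound_of_continuousOn hc.continuousOn
  have := key (fun x => ((f x : NNReal) : ℝ)) hc (fun x => (f x).2) B
    (fun x => by rw [← Real.norm_eq_abs]; exact hB x (mem_univ x))
  simp only [ENNReal.ofReal_coe_nnreal] at this
  exact this.symm


end Pool.Agent.Helper529.Har
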