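import Pool.Agent.Helper529.Har.I6

set_option autoImplicit false

open Set Metric Filter Topology MeasureTheory
open scoped Manifold ComplexConjugate ENNReal
open ProbabilityTheory
open Pool.Agent.Helper240.Nev Pool.Agent.Helper684.Ergo

namespace Pool.Agent.Helper529.Har


variable {E M : Type*} [NormedAddCommGroup E] [NormedSpace ℂ E] [TopologicalSpace M]
  [ChartedSpace E M] [IsManifold 𝓘(ℂ, E) 1 M] [MeasurableSpace M]

variable {F : Foliation E M} {ω : PosForm E M} {μ : Measure M} {Φ : M → ℂ → M} {W : M → ℝ}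



theorem measurable_kk : Measurable (fun u : ℝ => ENNReal.ofReal (u ^ 2 / Real.pi)) :=
  ENNReal.measurable_ofReal.comp ((measurable_id.pow_const 2).div_const _)

theorem measurable_hh_left (z : ℂ) : Measurable (fun w => ENNReal.ofReal ((hh z w) ^ 2 / Real.pi)) := by
  have h2 : Measurable (Function.uncurry hh) := measurable_hh
  have h3 : Measurable (hh z) := h2.of_uncurry_left
  exact Measurable.comp (g := fun u : ℝ => ENNReal.ofReal (u ^ 2 / Real.pi)) (f := hh z)
    measurable_kk h3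

theorem aemeasurable_cov [BorelSpace M] {φ : ℂ → M} (hφ : F.IsUniversalCovering φ) :
    AEMeasurable φ hypVol := by
  have hc : ContinuousOn φ (ball (0 : ℂ) 1) := fun z hz => (hφ.tangent.contAt hz).continuousWithinAt
  have h1 : AEMeasurable φ ((volume : Measure ℂ).restrict (ball 0 1)) :=
    hc.aemeasurable isOpen_ball.measurableSet
  exact h1.mono_ac (withDensity_absolutelyContinuous _ _)

theorem kerOf_compl_eq_zero_iff [BorelSpace M] (hΦ : Fam F Φ) {A : Set M} (hA : MeasurableSet A)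
    {φ : ℂ → M} (hφ : F.IsUniversalCovering φ) {z : ℂ} (hz : z ∈ ball (0 : ℂ) 1) :
    kerOf Φ hΦ.meas (fun u => ENNReal.ofReal (u ^ 2 / Real.pi)) (φ z) Aᶜ = 0 ↔
      ∀ᵐ w ∂hypVol, (Aᶜ.indicator (1 : M → ℝ≥0∞)) (φ w) = 0 := by
  have hf : Measurable (Aᶜ.indicator (1 : M → ℝ≥0∞)) := measurable_one.indicator hA.compl
  have h1 : kerOf Φ hΦ.meas (fun u => ENNReal.ofReal (u ^ 2 / Real.pi)) (φ z) Aᶜ =
      ∫⁻ w, ENNReal.ofReal ((hh z w) ^ 2 / Real.pi) * (Aᶜ.indicator (1 : M → ℝ≥0∞)) (φ w) ∂hypVol := by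
    rw [← lintegral_indicator_one hA.compl, lintegral_kerOf hΦ.meas measurable_kk hf]
    exact rebase_lintegral hΦ hφ hz measurable_kk hf
  have hm : AEMeasurable (fun w => ENNReal.ofReal ((hh z w) ^ 2 / Real.pi) *
      (Aᶜ.indicator (1 : M → ℝ≥0∞)) (φ w)) hypVol := by
    have h2 : AEMeasurable (fun w => (Aᶜ.indicator (1 : M → ℝ≥0∞)) (φ w)) hypVol :=
      hf.comp_aemeasurable (aemeasurable_cov hφ)
    exact (measurable_hh_left z).aemeasurable.mul h2
  rw [h1, lintegral_eq_zero_iff' hm]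
  constructor
  · intro h
    filter_upwards [h, ae_mem_ball] with w hw hwb
    have hp : ENNReal.ofReal ((hh z w) ^ 2 / Real.pi) ≠ 0 := by
      have := hh_pos hz hwb
      have hpi := Real.pi_pos
      rw [Ne, ENNReal.ofReal_eq_zero, not_le]
      positivity
    exact (mul_eq_zero.1 hw).resolve_left hp
  · intro h
    filter_upwards [h] with w hw
    rw [hw, mul_zero]; rfl

/-- the set of points from which the kernel is concentrated on `A` is saturated -/
theorem saturated_kerOf [BorelSpace M] (hΦ : Fam F Φ) {A : Set M} (hA : MeasurableSet A)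
    {φ : ℂ → M} (hφ : F.IsUniversalCovering φ) {z : ℂ} (hz : z ∈ ball (0 : ℂ) 1) :
    (φ z ∈ {x | kerOf Φ hΦ.meas (fun u => ENNReal.ofReal (u ^ 2 / Real.pi)) x Aᶜ = 0} ↔
      φ 0 ∈ {x | kerOf Φ hΦ.meas (fun u => ENNReal.ofReal (u ^ 2 / Real.pi)) x Aᶜ = 0}) := by
  show (kerOf Φ hΦ.meas (fun u => ENNReal.ofReal (u ^ 2 / Real.pi)) (φ z) Aᶜ = 0) ↔
    (kerOf Φ hΦ.meas (fun u => ENNReal.ofReal (u ^ 2 / Real.pi)) (φ 0) Aᶜ = 0)
  rw [kerOf_compl_eq_zero_iff hΦ hA hφ hz,
    kerOf_compl_eq_zero_iff hΦ hA hφ (mem_ball_self one_pos)]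

theorem kerOf_univ (hΦ : Fam F Φ) (x : M) :
    kerOf Φ hΦ.meas (fun u => ENNReal.ofReal (u ^ 2 / Real.pi)) x univ = 1 := by
  have h1 := lintegral_kerOf hΦ.meas measurable_kk (f := fun _ => (1 : ℝ≥0∞)) measurable_const x
  rw [lintegral_one] at h1
  rw [h1]
  simp only [mul_one]
  obtain ⟨h2, h3⟩ := integral_hh_pow 2 le_rfl
  rw [← ofReal_integral_eq_lintegral_ofReal (h3.div_const _)
    (Filter.Eventually.of_forall fun w => by
      have := Real.pi_pos
      show (0 : ℝ) ≤ hh 0 w ^ 2 / Real.pi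
      positivity), integral_div]
  have h4 : (∫ w, hh 0 w ^ 2 ∂hypVol) / Real.pi = 1 := by
    rw [← h2]; push_cast; ring
  rw [h4, ENNReal.ofReal_one]

/-- **Ergodicity** of the kernel. -/
theorem ergodic_kerOf [BorelSpace M] [FiniteDimensional ℂ E] [T2Space M] [CompactSpace M]
    [IsFiniteMeasure μ] (hΦ : Fam F Φ) (hH : ∀ᵐ x ∂μ, IsHyperbolic F x)
    (hT : Test F ω μ Φ) (hW : Barrier F ω W) {den : M → ℝ} (hd : Measurable den)
    (hden : ∀ φ : ℂ → M, F.IsUniversalCovering φ → den (φ 0) = pullback ω φ 0)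
    (hμ : IsDirectedHarmonic ω F μ) (hext : IsExtremal ω F μ) {A : Set M} (hA : MeasurableSet A)
    (hinv : ∀ᵐ x ∂(poin μ den),
      kerOf Φ hΦ.meas (fun u => ENNReal.ofReal (u ^ 2 / Real.pi)) x A = A.indicator 1 x) :
    poin μ den A = 0 ∨ poin μ den Aᶜ = 0 := by
  obtain ⟨κ, hκ⟩ : ∃ κ : Kernel M M, κ = kerOf Φ hΦ.meas (fun u => ENNReal.ofReal (u ^ 2 / Real.pi)) :=
    ⟨_, rfl⟩
  set A1 : Set M := {x | kerOf Φ hΦ.meas (fun u => ENNReal.ofReal (u ^ 2 / Real.pi)) x Aᶜ = 0} with hA1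
  have hA1m : MeasurableSet A1 :=
    (Kernel.measurable_coe (kerOf Φ hΦ.meas (fun u => ENNReal.ofReal (u ^ 2 / Real.pi))) hA.compl)
      (measurableSet_singleton 0)
  have herg := ergodic_of_extremal hΦ hH hT hW hμ hext hA1m
    (fun φ hφ z hz => saturated_kerOf hΦ hA hφ hz)
  have hac : poin μ den ≪ μ := withDensity_absolutelyContinuous _ _
  have hae : A =ᵐ[poin μ den] A1 := by
    filter_upwards [hinv] with x hx
    have hu := kerOf_univ hΦ x
    have hsum : kerOf Φ hΦ.meas (fun u => ENNReal.ofReal (u ^ 2 / Real.pi)) x A +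
        kerOf Φ hΦ.meas (fun u => ENNReal.ofReal (u ^ 2 / Real.pi)) x Aᶜ = 1 := by
      rw [measure_add_measure_compl hA, hu]
    rw [hx] at hsum
    apply propext
    show x ∈ A ↔ kerOf Φ hΦ.meas (fun u => ENNReal.ofReal (u ^ 2 / Real.pi)) x Aᶜ = 0
    by_cases hxA : x ∈ A
    · rw [indicator_of_mem hxA] at hsum
      simp only [Pi.one_apply] at hsum
      have : kerOf Φ hΦ.meas (fun u => ENNReal.ofReal (u ^ 2 / Real.pi)) x Aᶜ = 0 := by
        have h5 : (1 : ℝ≥0∞) + kerOf Φ hΦ.meas (fun u => ENNReal.ofReal (u ^ 2 / Real.pi)) x Aᶜ =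
          1 + 0 := by rw [hsum, add_zero]
        exact (ENNReal.add_right_inj ENNReal.one_ne_top).1 h5
      exact ⟨fun _ => this, fun _ => hxA⟩
    · rw [indicator_of_notMem hxA, zero_add] at hsum
      refine ⟨fun h => absurd h hxA, fun h => ?_⟩
      rw [h] at hsum
      exact absurd hsum zero_ne_one
  rcases herg with h | h
  · left
    rw [measure_congr hae]
    exact hac h
  · right
    rw [measure_congr hae.compl]
    exact hac h


end Pool.Agent.Helper529.Har
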